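import Pool.Agent.TH685.TI.Idx2

set_option autoImplicit false
set_option maxHeartbeats 1000000

/-! # Goldbach representations with a prime-indexed prime: both primes are large for most `n` -/

namespace Pool.Agent.Results.MP_5d7b92_nt.BothPrimesLarge

open Finset Filter Pool.Agent.TH685.Gen

/-- `p, π(p), π(π(p)), ..., π^k(p)` are prime -/
def W (k p : ℕ) : Prop := ∀ j ≤ k, (Nat.primeCounting^[j] p).Prime

lemma W_prime {k p : ℕ} (h : W k p) : p.Prime := h 0 (Nat.zero_le _)

lemma pi_inj {p q : ℕ} (hp : p.Prime) (hq : q.Prime)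
    (h : Nat.primeCounting p = Nat.primeCounting q) : p = q := by
  have h1 : Nat.count Nat.Prime p = Nat.count Nat.Prime q := by
    unfold Nat.primeCounting Nat.primeCounting' at h
    rw [Nat.count_succ, Nat.count_succ, if_pos hp, if_pos hq] at h
    omega
  rw [← Nat.nth_count hp, ← Nat.nth_count hq, h1]

lemma cn_step (k q : ℕ) : cn (W (k + 1)) q ≤ cn (W k) (Nat.primeCounting q + 1) := by
  unfold cn
  refine Set.ncard_le_ncard_of_injOn Nat.primeCounting ?_ ?_ (fin_lt (W k) _)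
  · rintro p ⟨h1, h2, h3⟩
    have hW : W k (Nat.primeCounting p) := by
      intro j hj
      have := h3 (j + 1) (by omega)
      rwa [Function.iterate_succ_apply] at this
    refine ⟨(W_prime hW).one_lt.le, ?_, hW⟩
    have := Nat.monotone_primeCounting h2.le
    omega
  · rintro p ⟨-, -, hp⟩ p' ⟨-, -, hp'⟩ h
    exact pi_inj (W_prime hp) (W_prime hp') h

theorem idx (k : ℕ) : ∃ C : ℝ, 1 ≤ C ∧ ∀ (q : ℕ) (R : ℝ), 3 ≤ R → R < cn (W k) q →
    R * Real.log R ^ (k + 1) ≤ C * q := by
  induction k with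
  | zero =>
    obtain ⟨C, hC, h⟩ := prime_idx
    refine ⟨C, hC, fun q R hR hRq => ?_⟩
    rw [zero_add, pow_one]
    apply h q R hR
    refine lt_of_lt_of_le hRq ?_
    exact_mod_cast cn_mono (fun j hj => W_prime hj) q
  | succ k ih =>
    obtain ⟨C, hC, h⟩ := ih
    obtain ⟨C', hC', hbt⟩ := Pool.Agent.Helper601.brun_titchmarsh
    refine ⟨C * (2 * C' + 1), by nlinarith, fun q R hR hRq => ?_⟩
    have h1 : R < cn (W k) (Nat.primeCounting q + 1) := by
      refine lt_of_lt_of_le hRq ?_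
      exact_mod_cast cn_step k q
    have h2 := h _ R hR h1
    have hRq' : R < q := by
      refine lt_of_lt_of_le hRq ?_
      have h3 : cn (W (k + 1)) q ≤ q := by
        unfold cn
        have h4 : {j : ℕ | 1 ≤ j ∧ j < q ∧ W (k + 1) j} ⊆ ((range q : Finset ℕ) : Set ℕ) := by
          rintro j ⟨-, h5, -⟩
          rw [mem_coe, mem_range]
          exact h5
        have := Set.ncard_le_ncard h4 (Finset.finite_toSet _)
        rwa [Set.ncard_coe_finset, card_range] at this
      exact_mod_cast h3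
    have hq3 : (3 : ℝ) < q := by linarith
    have hq2 : 3 < q := by exact_mod_cast hq3
    have hlq : 0 < Real.log q := Real.log_pos (by linarith)
    have hlR : 0 ≤ Real.log R := Real.log_nonneg (by linarith)
    have hlRq : Real.log R ≤ Real.log q := Real.log_le_log (by linarith) hRq'.le
    have h3 : (Nat.primeCounting q : ℝ) ≤ 2 * C' * q / Real.log q := by
      have h4 := hbt 0 1 (q + 1) (by omega) (Or.inl rfl)
      have h5 : Nat.primeCounting q = ((range (q + 1)).filter (fun k : ℕ => Nat.Prime (0 + k * 1))).card := by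
        unfold Nat.primeCounting Nat.primeCounting'
        rw [Nat.count_eq_card_filter_range]
        congr 1
        apply Finset.filter_congr
        intro j _
        rw [zero_add, mul_one]
      rw [← h5] at h4
      have h6 : Real.log q ≤ Real.log ((q + 1 : ℕ) : ℝ) := by
        apply Real.log_le_log (by linarith)
        push_cast
        linarith
      calc (Nat.primeCounting q : ℝ) ≤ C' * ((q + 1 : ℕ) : ℝ) / Real.log ((q + 1 : ℕ) : ℝ) := h4
        _ ≤ C' * (2 * q) / Real.log q := by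
            push_cast at h6 ⊢
            gcongr
            linarith
        _ = 2 * C' * q / Real.log q := by ring
    have hlq' : Real.log q ≤ q := (Real.log_le_sub_one_of_pos (by linarith)).trans (by linarith)
    calc R * Real.log R ^ (k + 1 + 1) = (R * Real.log R ^ (k + 1)) * Real.log R := by ring
      _ ≤ (C * ((Nat.primeCounting q + 1 : ℕ) : ℝ)) * Real.log q := by
          apply mul_le_mul h2 hlRq hlR (by positivity)
      _ ≤ (C * (2 * C' * q / Real.log q + 1)) * Real.log q := by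
          push_cast
          gcongr
      _ = C * (2 * C' * q + Real.log q) := by field_simp
      _ ≤ C * (2 * C' * q + q) := by gcongr
      _ = C * (2 * C' + 1) * q := by ring

/-- **Theorem.** Let `k ≥ 0` (`k = 1` is the condition of the problem). For every `ε > 0` there is `c > 0` such
that for all large `X` and all `Y`, all but at most `ε X` of the integers `n` with `Y < n ≤ Y + X` have the
following property: if `p < 2 n` is such that `p, π(p), ..., π^k(p)` and `2 n - p` are prime then more than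
`c log X` integers `p' < p` are such that `p', π(p'), ..., π^k(p')` are prime,
`p > c log X (log log X)^(k+1)` and `2 n - p > c log X log log X`. -/
theorem result (k : ℕ) (ε : ℝ) (hε : 0 < ε) : ∃ c : ℝ, 0 < c ∧ ∃ X₀ : ℕ, ∀ X : ℕ, X₀ ≤ X → ∀ Y : ℕ,
    ∃ B : Finset ℕ, (B.card : ℝ) ≤ ε * X ∧ ∀ n : ℕ, Y < n → n ≤ Y + X → n ∉ B →
      ∀ p : ℕ, p < 2 * n → (∀ j ≤ k, (Nat.primeCounting^[j] p).Prime) → (2 * n - p).Prime →
        c * Real.log X < Set.ncard {p' : ℕ | p' < p ∧ ∀ j ≤ k, (Nat.primeCounting^[j] p').Prime} ∧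
        c * (Real.log X * Real.log (Real.log X) ^ (k + 1)) < p ∧
        c * (Real.log X * Real.log (Real.log X)) < (2 * n - p : ℕ) := by
  obtain ⟨C, hC, hcov⟩ := cover_bt
  obtain ⟨c₀, hc₀d⟩ : ∃ c₀ : ℝ, c₀ = ε / (6 * C) := ⟨_, rfl⟩
  have hc₀ : 0 < c₀ := by rw [hc₀d]; positivity
  obtain ⟨c₁, hc₁, X₂, hbig⟩ := prime_big c₀ hc₀
  obtain ⟨C₁, hC₁, hidx⟩ := idx k
  have hlogt : Tendsto (fun x : ℕ => Real.log (x : ℝ)) atTop atTop :=
    Real.tendsto_log_atTop.comp tendsto_natCast_atTop_atTop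
  obtain ⟨X₃, hX₃⟩ := eventually_atTop.1 ((hlogt.eventually_ge_atTop
    (max 4 (max (3 / c₀) ((1 / c₀) ^ 2)))).and (eventually_ge_atTop 3))
  obtain ⟨c₂, hc₂d⟩ : ∃ c₂ : ℝ, c₂ = c₀ / (2 ^ (k + 2) * C₁) := ⟨_, rfl⟩
  have hc₂ : 0 < c₂ := by rw [hc₂d]; positivity
  refine ⟨min c₀ (min c₁ c₂), by positivity, max X₂ X₃, fun X hX Y => ?_⟩
  obtain ⟨hLb, hX3⟩ := hX₃ X ((le_max_right _ _).trans hX)
  have hXr : (3 : ℝ) ≤ X := by exact_mod_cast hX3
  have hX2 := hbig X ((le_max_left _ _).trans hX)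
  obtain ⟨L, hLd⟩ : ∃ L : ℝ, L = Real.log X := ⟨_, rfl⟩
  have hcov' := hcov X hX3 Y
  rw [← hLd] at hLb hX2 hcov' ⊢
  have hL4 : 4 ≤ L := (le_max_left _ _).trans hLb
  have hLc : 3 ≤ c₀ * L := by
    have h1 : 3 / c₀ ≤ L := (le_max_left _ _).trans ((le_max_right _ _).trans hLb)
    rw [div_le_iff₀ hc₀] at h1
    linarith
  have hLq : 1 ≤ c₀ ^ 2 * L := by
    have h1 : (1 / c₀) ^ 2 ≤ L := (le_max_right _ _).trans ((le_max_right _ _).trans hLb)
    rw [div_pow, one_pow, div_le_iff₀ (by positivity)] at h1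
    linarith
  have hl : 1 ≤ Real.log L := by
    rw [Real.le_log_iff_exp_le (by linarith)]
    have := Real.exp_one_lt_d9
    linarith
  have hlB : Real.log L / 2 ≤ Real.log (c₀ * L) := by
    have h1 : L ≤ (c₀ * L) ^ 2 := by
      have : L * 1 ≤ L * (c₀ ^ 2 * L) := mul_le_mul_of_nonneg_left hLq (by linarith)
      nlinarith
    have h2 := Real.log_le_log (by linarith) h1
    rw [Real.log_pow] at h2
    push_cast at h2
    linarith
  obtain ⟨S₁, hS₁, hm₁⟩ := first_card (W k) (c₀ * L) (by linarith) (2 * (Y + X) + 1)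
  obtain ⟨S₂, hS₂, hm₂⟩ := first_card (fun j => j.Prime) (c₀ * L) (by linarith) (2 * (Y + X) + 1)
  obtain ⟨B₁, hB₁, hn₁⟩ := hcov' S₁
  obtain ⟨B₂, hB₂, hn₂⟩ := hcov' S₂
  refine ⟨B₁ ∪ B₂, ?_, ?_⟩
  · have h3 : ((B₁ ∪ B₂).card : ℝ) ≤ B₁.card + B₂.card := by exact_mod_cast card_union_le _ _
    have h4 : C * (S₁.card * (X / L)) ≤ C * ((2 * (c₀ * L)) * (X / L)) := by
      have : (S₁.card : ℝ) ≤ 2 * (c₀ * L) := by linarith
      gcongr
    have h5 : C * (S₂.card * (X / L)) ≤ C * ((2 * (c₀ * L)) * (X / L)) := by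
      have : (S₂.card : ℝ) ≤ 2 * (c₀ * L) := by linarith
      gcongr
    have h6 : C * ((2 * (c₀ * L)) * (X / L)) = ε * X / 3 := by
      rw [hc₀d]
      field_simp
      norm_num
    have h7 : 0 ≤ ε * X := by positivity
    linarith
  · intro n hn1 hn2 hnB p hpn hpW hq
    rw [mem_union, not_or] at hnB
    have hp : p.Prime := W_prime hpW
    have hq0 := hq.pos
    have hpS₁ := hn₁ n hn1 hn2 hnB.1 p (2 * n - p) hq (by omega)
    have hqS₂ := hn₂ n hn1 hn2 hnB.2 (2 * n - p) p hp (by omega)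
    have h3 := hm₁ p (by omega) hp.one_lt.le hpW hpS₁
    have h4 := hX2 (2 * n - p) (hm₂ (2 * n - p) (by omega) hq.one_lt.le hq hqS₂)
    have h5 := hidx p (c₀ * L) hLc h3
    have hL : 0 ≤ L := by linarith
    obtain ⟨c, hc⟩ : ∃ c : ℝ, c = min c₀ (min c₁ c₂) := ⟨_, rfl⟩
    have hca : c ≤ c₀ := by rw [hc]; exact min_le_left _ _
    have hcb : c ≤ c₁ := by rw [hc]; exact (min_le_right _ _).trans (min_le_left _ _)
    have hcc : c ≤ c₂ := by rw [hc]; exact (min_le_right _ _).trans (min_le_right _ _)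
    rw [← hc]
    have h9 : c * L ≤ c₀ * L := mul_le_mul_of_nonneg_right hca hL
    have h10 : c * (L * Real.log L) ≤ c₁ * (L * Real.log L) :=
      mul_le_mul_of_nonneg_right hcb (mul_nonneg hL (by linarith))
    have h11 : cn (W k) p ≤ Set.ncard {p' : ℕ | p' < p ∧ ∀ j ≤ k, (Nat.primeCounting^[j] p').Prime} := by
      unfold cn
      apply Set.ncard_le_ncard
      · rintro j ⟨-, hj2, hj3⟩
        exact ⟨hj2, hj3⟩
      · exact (Set.finite_Iio p).subset (fun j hj => hj.1)
    have h12 : (cn (W k) p : ℝ) ≤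
        Set.ncard {p' : ℕ | p' < p ∧ ∀ j ≤ k, (Nat.primeCounting^[j] p').Prime} := by exact_mod_cast h11
    refine ⟨by linarith, ?_, by linarith⟩
    have h13 : c₀ * L * (Real.log L / 2) ^ (k + 1) ≤ C₁ * p := by
      refine le_trans (mul_le_mul_of_nonneg_left ?_ (by positivity)) h5
      exact pow_le_pow_left₀ (by linarith) hlB (k + 1)
    have h14 : c * (L * Real.log L ^ (k + 1)) ≤ c₂ * (L * Real.log L ^ (k + 1)) :=
      mul_le_mul_of_nonneg_right hcc (mul_nonneg hL (pow_nonneg (by linarith) _))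
    have h15 : c₂ * (L * Real.log L ^ (k + 1)) =
        (c₀ * L * (Real.log L / 2) ^ (k + 1)) / (2 * C₁) := by
      rw [hc₂d, div_pow]
      field_simp
      ring
    have hp0 : (0 : ℝ) < p := by exact_mod_cast hp.pos
    have h16 : (c₀ * L * (Real.log L / 2) ^ (k + 1)) / (2 * C₁) < p := by
      rw [div_lt_iff₀ (by positivity)]
      nlinarith
    linarith

end Pool.Agent.Results.MP_5d7b92_nt.BothPrimesLarge
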