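import Mathlib
import Pool.Agent.TH881.RK.Interp

/-!
# Goldbach partitions with a prime whose index lies in a dense set

Let `B` be a set of positive integers (in the question: the set of all primes). Which even numbers
`2 n` are sums `p + q` of two primes such that the index `π(p)` of `p` lies in `B`? If `B` has
lower density at least `1 / φ(P)`, `P` the product of the primes up to some prime `p₀ ≥ 3`, then the
set of these `n` has lower density at least `2 φ(P) / P`, and this is best possible. (For `P = 6`: one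
half of the indices gives at least `2 / 3` of all `n`; for `P = 30`: one eighth of the indices gives at
least `8 / 15` of all `n`; and so on.) The same holds with `√(2 n) < p < n`, and, with the `m`-th
power of `2 φ(P) / P`, for the vectors `(n 1, ..., n m)` with a common prime `p`, if `p₀ ≥ m + 2`.
Between the exact values there is a lower bound by interpolation.
-/

set_option autoImplicit false

namespace Pool.Agent.Results.MP_5d7b92_nt.IndicesInDenseSets
open Finset Filter Topology

open Classical in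
/-- The number of elements of `S` in `[1, x]`. -/
noncomputable def count (S : Set ℕ) (x : ℕ) : ℕ := ((Icc 1 x).filter (fun n => n ∈ S)).card

/-- The lower density of a set of positive integers. -/
noncomputable def lowerDensity (S : Set ℕ) : ℝ := liminf (fun x : ℕ => (count S x : ℝ) / x) atTop

open Classical in
/-- The number of the vectors in `S` with entries in `[1, x]`. -/
noncomputable def countVec {m : ℕ} (S : Set (Fin m → ℕ)) (x : ℕ) : ℕ :=
  ((Fintype.piFinset (fun _ : Fin m => Icc 1 x)).filter (fun h => h ∈ S)).card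

/-- The lower density of a set of vectors. -/
noncomputable def lowerVec {m : ℕ} (S : Set (Fin m → ℕ)) : ℝ :=
  liminf (fun x : ℕ => (countVec S x : ℝ) / (x : ℝ) ^ m) atTop

/-- The vectors `n` for which some prime `p` with index `π(p)` in `B` has `p < 2 n j` and
`2 n j - p` prime for all `j`. -/
def represented (m : ℕ) (B : Set ℕ) : Set (Fin m → ℕ) :=
  {n | ∃ p : ℕ, p.Prime ∧ Nat.primeCounting p ∈ B ∧ ∀ j, p < 2 * n j ∧ (2 * n j - p).Prime}

/-- The same with `√(2 n j) < p < n j` (that is `2 n j < p ^ 2` and `p < n j`). -/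
def windowed (m : ℕ) (B : Set ℕ) : Set (Fin m → ℕ) :=
  {n | ∃ p : ℕ, p.Prime ∧ Nat.primeCounting p ∈ B ∧ ∀ j, 2 * n j < p ^ 2 ∧ p < n j ∧ (2 * n j - p).Prime}

/-- The product of the primes up to `k`. -/
def P (k : ℕ) : ℕ := ∏ p ∈ (Icc 1 k).filter Nat.Prime, p

/-- **Exact densities.** Let `m ≥ 1` and let `p ≥ m + 2` be a prime.
(1) Sets `B` of lower density at least `1 / φ(P p)`: the least possible lower density of
`represented m B` is exactly `(2 φ(P p) / P p) ^ m`; (2) the same for `windowed m B`.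
(3) If `0 < β < 1`, `β ≤ 1 / φ(P (p - 1))` and `B` has lower density at least `β`, then the lower
density of `windowed m B` is at least `(2 φ(P (p - 1)) / P (p - 1)) ^ m (β φ(P (p - 1))) ^ a`, where
`a = m log (p / (p - 1)) / log (p - 1)`. -/
theorem result (m p : ℕ) (hm : 1 ≤ m) (hp : p.Prime) (hmp : m + 2 ≤ p) :
    IsLeast {d | ∃ B : Set ℕ, 1 / (Nat.totient (P p) : ℝ) ≤ lowerDensity B ∧ d = lowerVec (represented m B)}
      ((2 * (Nat.totient (P p) : ℝ) / P p) ^ m) ∧
    IsLeast {d | ∃ B : Set ℕ, 1 / (Nat.totient (P p) : ℝ) ≤ lowerDensity B ∧ d = lowerVec (windowed m B)}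
      ((2 * (Nat.totient (P p) : ℝ) / P p) ^ m) ∧
    ∀ (β : ℝ) (B : Set ℕ), 0 < β → β < 1 → β ≤ 1 / (Nat.totient (P (p - 1)) : ℝ) → β ≤ lowerDensity B →
      (2 * (Nat.totient (P (p - 1)) : ℝ) / P (p - 1)) ^ m *
        (β * (Nat.totient (P (p - 1)) : ℝ)) ^ (m * Real.logb ((p : ℝ) - 1) ((p : ℝ) / ((p : ℝ) - 1))) ≤
        lowerVec (windowed m B) := by
  have eP : ∀ k, P k = Pool.Agent.TH881.Wp k := fun k => rfl
  have hlow : ∀ B : Set ℕ, 1 / (Nat.totient (P p) : ℝ) ≤ lowerDensity B →
      (2 * (Nat.totient (P p) : ℝ) / P p) ^ m ≤ lowerVec (windowed m B) := by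
    intro B hB
    rw [eP] at hB ⊢
    exact Pool.Agent.TH881.RK.Index.lower_exact m hm (by omega) (by omega) B hB
  have hle1 : ∀ S : Set (Fin m → ℕ), ∀ x : ℕ, (countVec S x : ℝ) / (x : ℝ) ^ m ≤ 1 :=
    fun S x => Pool.Agent.TH881.RK.Index.cv_le S x
  have hbdd : ∀ S : Set (Fin m → ℕ), IsBoundedUnder (· ≤ ·) atTop (fun x : ℕ => (countVec S x : ℝ) / (x : ℝ) ^ m) :=
    fun S => isBoundedUnder_of ⟨1, hle1 S⟩
  have hbdd0 : ∀ S : Set (Fin m → ℕ), IsBoundedUnder (· ≥ ·) atTop (fun x : ℕ => (countVec S x : ℝ) / (x : ℝ) ^ m) :=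
    fun S => isBoundedUnder_of ⟨0, fun x => by positivity⟩
  have hmono : ∀ B : Set ℕ, lowerVec (windowed m B) ≤ lowerVec (represented m B) := by
    intro B
    unfold lowerVec
    refine liminf_le_liminf (Eventually.of_forall fun x => ?_) (hbdd0 _) (hbdd _).isCoboundedUnder_ge
    refine div_le_div_of_nonneg_right ?_ (pow_nonneg (Nat.cast_nonneg x) m)
    have h : windowed m B ⊆ represented m B := by
      rintro n ⟨q, hq, hqB, hj⟩
      refine ⟨q, hq, hqB, fun j => ⟨?_, (hj j).2.2⟩⟩
      have := (hj j).2.1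
      omega
    have h2 : countVec (windowed m B) x ≤ countVec (represented m B) x := by
      apply card_le_card
      intro n hn
      obtain ⟨h1, h2⟩ := Pool.Agent.TH881.RK.Index.mem_cv.1 hn
      exact Pool.Agent.TH881.RK.Index.mem_cv.2 ⟨h1, h h2⟩
    exact_mod_cast h2
  have hB1 : 1 / (Nat.totient (P p) : ℝ) ≤ lowerDensity (Pool.Agent.TH881.RK.Index.B1 p) := by
    rw [eP]
    exact Pool.Agent.TH881.RK.Index.B1_dens (by omega)
  have hup : lowerVec (represented m (Pool.Agent.TH881.RK.Index.B1 p)) ≤ (2 * (Nat.totient (P p) : ℝ) / P p) ^ m := by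
    rw [eP]
    refine le_trans ?_ (Pool.Agent.TH881.RK.Index.upper_le m p)
    exact liminf_le_limsup (hbdd _) (hbdd0 _)
  refine ⟨⟨⟨_, hB1, ?_⟩, ?_⟩, ⟨⟨_, hB1, ?_⟩, ?_⟩, ?_⟩
  · exact le_antisymm ((hlow _ hB1).trans (hmono _)) hup
  · rintro d ⟨B, hB, rfl⟩
    exact (hlow B hB).trans (hmono B)
  · exact le_antisymm (hlow _ hB1) ((hmono _).trans hup)
  · rintro d ⟨B, hB, rfl⟩
    exact hlow B hB
  · intro β B hβ hβ1 hβ2 hB
    exact Pool.Agent.TH881.RK.Index.lower_gen m hm hp hmp hβ hβ1 hβ2 B hB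

end Pool.Agent.Results.MP_5d7b92_nt.IndicesInDenseSets
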