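import Pool.Agent.TH882.Y4
import Pool.Agent.TH882.J5

/-!
Goldbach representations `N = p + q` of almost all even integers `N` in which the index `π(p)` of the
first prime belongs to a given syndetic set, for instance to the integers without small prime factors.
-/

set_option autoImplicit false

open Finset Filter Topology

namespace Pool.Agent.Results.MP_5d7b92_nt.IndicesInSyndeticSets

/-- Every block of `M` consecutive positive integers contains an element of `K`. -/
def Syndetic (M : ℕ) (K : Set ℕ) : Prop := ∀ j : ℕ, 1 ≤ j → ∃ i < M, j + i ∈ K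

open Classical in
/-- The primes `p < N` with `N - p` prime whose index `π(p)` belongs to `K`. -/
noncomputable def representations (K : Set ℕ) (N : ℕ) : Finset ℕ :=
  (range N).filter (fun p => p.Prime ∧ (N - p).Prime ∧ Nat.primeCounting p ∈ K)

open Classical in
/-- The even `N` in `[1, x]` with fewer than `c * N ^ 2 / (φ(N) * (log N) ^ 2)` representations. -/
noncomputable def exceptions (K : Set ℕ) (c : ℝ) (x : ℕ) : Finset ℕ :=
  (Icc 1 x).filter (fun N => Even N ∧
    ((representations K N).card : ℝ) < c * ((N : ℝ) ^ 2 / (Nat.totient N * Real.log N ^ 2)))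

/-- The integers without a prime factor `l ≤ z`. -/
def rough (z : ℕ) : Set ℕ := {k : ℕ | ∀ l : ℕ, l.Prime → l ≤ z → ¬ l ∣ k}

theorem syndetic_rough (z : ℕ) : Syndetic (primorial z) (rough z) := by
  intro j hj
  have hW : 0 < primorial z := primorial_pos z
  set W := primorial z with hWd
  set i := (W * j + 1 - j) % W with hi
  have h1 : j ≤ W * j := Nat.le_mul_of_pos_left j hW
  refine ⟨i, Nat.mod_lt _ hW, ?_⟩
  intro l hl hlz hd
  have hlW : l ∣ W := hl.dvd_primorial_iff.2 hlz
  have h2 : j + i ≡ 1 [MOD W] := by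
    have h3 : i ≡ W * j + 1 - j [MOD W] := Nat.mod_modEq _ _
    have h4 : j + i ≡ j + (W * j + 1 - j) [MOD W] := h3.add_left j
    have h5 : j + (W * j + 1 - j) = W * j + 1 := by omega
    rw [h5] at h4
    refine h4.trans ?_
    have h6 : W * j + 1 ≡ 0 + 1 [MOD W] :=
      Nat.ModEq.add_right 1 ((Nat.modEq_zero_iff_dvd).2 (dvd_mul_right W j))
    simpa using h6
  have h3 : j + i ≡ 1 [MOD l] := h2.of_dvd hlW
  have h4 : l ∣ 1 := (h3.dvd_iff dvd_rfl).1 hd
  exact hl.one_lt.ne' (Nat.dvd_one.1 h4)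

theorem main (M : ℕ) (K : Set ℕ) (hK : Syndetic M K) (κ : ℝ) (hκ : 0 < κ) : ∃ c : ℝ, 0 < c ∧
    ∀ᶠ x : ℕ in atTop, ((exceptions K c x).card : ℝ) ≤ κ * x := by
  classical
  have hM : 1 ≤ M := by
    obtain ⟨i, hi, -⟩ := hK 1 le_rfl
    omega
  obtain ⟨c, hc, X₀, h⟩ := Pool.Agent.TH882.JS.goldbach_most
    (Pool.Agent.TH882.HY.IS K) (Pool.Agent.TH882.HY.IS_most M hM K hK) (κ / 2) (by positivity)
  refine ⟨c, hc, ?_⟩
  rw [eventually_atTop]
  apply Pool.Agent.TH882.JS.dyadic2 _ κ hκ
  refine ⟨X₀, fun X hX => (le_trans ?_ (h X hX))⟩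
  apply Nat.cast_le.2
  apply card_le_card
  intro N hN
  rw [mem_filter, mem_Ico] at hN ⊢
  obtain ⟨⟨hN1, hN2⟩, hNe, hNl⟩ := hN
  refine ⟨⟨hN1, hN2⟩, hNe, lt_of_le_of_lt ?_ hNl⟩
  apply Nat.cast_le.2
  apply card_le_card
  intro p hp
  unfold Pool.Agent.TH882.JS.GA at hp
  rw [mem_filter, mem_Ico] at hp
  obtain ⟨⟨hp1, hp2⟩, hpA, hpN⟩ := hp
  unfold Pool.Agent.TH882.HY.IS at hpA
  rw [mem_filter] at hpA
  unfold representations
  rw [mem_filter, mem_range]
  exact ⟨by omega, hpA.2.1, hpN, hpA.2.2⟩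

/-- **Goldbach representations with an index in a syndetic set.** Let `K` be a set of integers which
meets every block of `M` consecutive positive integers. For every `κ > 0` there is `c > 0` such that
for all large `x` and all even `N ≤ x`, with at most `κ x` exceptions, there are at least
`c N ^ 2 / (φ(N) (log N) ^ 2)` primes `p < N` with `N - p` prime and `π(p) ∈ K`.
In particular this holds, for every `z`, for the set of the integers without prime factors `l ≤ z`. -/
theorem result :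
    (∀ (M : ℕ) (K : Set ℕ), Syndetic M K → ∀ κ : ℝ, 0 < κ → ∃ c : ℝ, 0 < c ∧
      ∀ᶠ x : ℕ in atTop, ((exceptions K c x).card : ℝ) ≤ κ * x) ∧
    ∀ (z : ℕ) (κ : ℝ), 0 < κ → ∃ c : ℝ, 0 < c ∧
      ∀ᶠ x : ℕ in atTop, ((exceptions (rough z) c x).card : ℝ) ≤ κ * x :=
  ⟨fun M K hK κ hκ => main M K hK κ hκ,
    fun z κ hκ => main (primorial z) (rough z) (syndetic_rough z) κ hκ⟩

end Pool.Agent.Results.MP_5d7b92_nt.IndicesInSyndeticSets
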